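import Pool.Agent.SBE.Api

set_option autoImplicit false

namespace SBE

open MeasureTheory Set Filter Topology ProbabilityTheory
open SBA
open scoped ENNReal Pointwise

namespace ARE_

variable {d : ℕ}

/-- the gradient is measurable -/
lemma G_meas {s : EE d → ℝ} {G : EE d → EE d} {M : EE d → Matrix (Fin d) (Fin d) ℝ}
    (h : SMD s G M) : Measurable G := by
  refine measurable_of_continuousOn_compl_singleton 0 ?_
  intro y hy
  exact (h.hess y hy).continuousAt.continuousWithinAt

/-- `BB` is homogeneous of degree zero -/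
lemma BB_ho (hHOM : Stmt_HOM) {s : EE d → ℝ} {G : EE d → EE d}
    {M : EE d → Matrix (Fin d) (Fin d) ℝ} (h : SMD s G M) (e r t : ℝ) (ht : 0 < t) (y : EE d) :
    BB s G M e r (t • y) = BB s G M e r y := by
  by_cases hy : y = 0
  · subst hy
    rw [smul_zero]
  · obtain ⟨h1, h2, h3, h4⟩ := hHOM d s G M h y hy
    obtain ⟨h5, h6⟩ := h1 t ht
    have hn : ‖t • y‖ = t * ‖y‖ := by rw [norm_smul, Real.norm_of_nonneg ht.le]
    have hs := h.hom t y ht
    have hsp := h.pos y hy
    have hyn : 0 < ‖y‖ := norm_pos_iff.2 hy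
    unfold BB
    have hAA : AA s G M (t • y) = AA s G M y := by
      ext i j
      simp only [AA, Matrix.of_apply]
      rw [hn, hs, h6, h5]
      simp only [Matrix.smul_apply, PiLp.smul_apply, smul_eq_mul]
      field_simp
    rw [hAA, hn, hs]
    congr 2
    field_simp

/-- the determinant of `BB` is measurable -/
lemma BB_meas (hBDX : Stmt_BDX) {s : EE d → ℝ} {G : EE d → EE d}
    {M : EE d → Matrix (Fin d) (Fin d) ℝ} (h : SMD s G M) (e r : ℝ) :
    Measurable (fun y => (BB s G M e r y).det) := by
  obtain ⟨h1, h2, h3, h4⟩ := hBDX d s G M h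
  have hG := G_meas h
  have hGi : ∀ i, Measurable fun y => G y i := by
    intro i
    have a1 : Measurable fun y : EE d => y i := by fun_prop
    exact a1.comp hG
  have hyi : ∀ i, Measurable fun y : EE d => y i := by
    intro i
    fun_prop
  have hAA : ∀ i j, Measurable fun y => AA s G M y i j := by
    intro i j
    simp only [AA, Matrix.of_apply]
    have a1 := h2 i j
    have a2 := hGi i
    have a3 := hGi j
    have a4 := hyi i
    have a5 := hyi j
    fun_prop
  have hBB : ∀ i j, Measurable fun y => BB s G M e r y i j := by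
    intro i j
    simp only [BB, Matrix.add_apply, Matrix.smul_apply, smul_eq_mul]
    have a1 := hAA i j
    fun_prop
  simp only [Matrix.det_apply]
  refine Finset.measurable_sum _ fun σ _ => ?_
  refine Measurable.const_smul ?_ _
  exact Finset.measurable_prod _ fun i _ => hBB _ _

end ARE_

open ARE_

theorem are_proof (h1 : Stmt_WPH) (h2 : Stmt_DPH) (h3 : Stmt_INJ) (h4 : Stmt_RAI) (h5 : Stmt_HOM)
    (h6 : Stmt_BDX) : Stmt_ARE := by
  intro d s G M e r U hd hS he he1 hr hrs hU hUc hUp
  have hBm := BB_meas h6 hS e r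
  -- polar coordinates
  set H : ℝ × EE d → ℝ≥0∞ := fun p =>
    (Iic (1 : ℝ)).indicator (fun _ => (1 : ℝ≥0∞)) p.1 *
      U.indicator (fun y => ENNReal.ofReal ((BB s G M e r y).det)) p.2 with hH
  have hHm : Measurable H := by
    have a1 : Measurable fun p : ℝ × EE d => (Iic (1 : ℝ)).indicator (fun _ => (1 : ℝ≥0∞)) p.1 :=
      (measurable_const.indicator measurableSet_Iic).comp measurable_fst
    have a2 : Measurable fun p : ℝ × EE d =>
        U.indicator (fun y => ENNReal.ofReal ((BB s G M e r y).det)) p.2 :=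
      (hBm.ennreal_ofReal.indicator hU).comp measurable_snd
    exact a1.mul a2
  have hHh : ∀ (ρ t : ℝ) (y : EE d), 0 < t → H (ρ, t • y) = H (ρ, y) := by
    intro ρ t y ht
    simp only [hH]
    congr 1
    by_cases hy : y ∈ U
    · rw [indicator_of_mem hy, indicator_of_mem ((hUc t y ht).2 hy), BB_ho h5 hS e r t ht y]
    · rw [indicator_of_notMem hy, indicator_of_notMem (fun h => hy ((hUc t y ht).1 h))]
  have hR := (h4 d H hd hHm hHh).2
  have hL : ∫⁻ y : EE d, H (‖y‖, y) = ∫⁻ y in U ∩ Metric.closedBall 0 1,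
      ENNReal.ofReal ((BB s G M e r y).det) := by
    rw [← lintegral_indicator (hU.inter measurableSet_closedBall)]
    refine lintegral_congr fun y => ?_
    simp only [hH]
    by_cases hy : y ∈ U
    · by_cases hn : ‖y‖ ≤ 1
      · rw [indicator_of_mem (show ‖y‖ ∈ Iic (1 : ℝ) from hn), indicator_of_mem hy,
          indicator_of_mem (show y ∈ U ∩ Metric.closedBall 0 1 from ⟨hy, by simpa using hn⟩),
          one_mul]
      · rw [indicator_of_notMem (show ‖y‖ ∉ Iic (1 : ℝ) from hn), zero_mul,
          indicator_of_notMem]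
        rintro ⟨_, h⟩
        exact hn (by simpa using h)
    · rw [indicator_of_notMem hy, mul_zero, indicator_of_notMem]
      rintro ⟨h, _⟩
      exact hy h
  have hRR : ∫⁻ y : EE d, ∫⁻ z : EE d, H (‖z‖, y) ∂volume ∂(gs d) =
      ENNReal.ofReal (kap d) * ∫⁻ y in U, ENNReal.ofReal ((BB s G M e r y).det) ∂(gs d) := by
    have a1 : ∀ y : EE d, ∫⁻ z : EE d, H (‖z‖, y) ∂volume =
        ENNReal.ofReal (kap d) * U.indicator (fun y => ENNReal.ofReal ((BB s G M e r y).det)) y := by
      intro y
      simp only [hH]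
      rw [lintegral_mul_const]
      · congr 1
        have a2 : ∀ z : EE d, (Iic (1 : ℝ)).indicator (fun _ => (1 : ℝ≥0∞)) ‖z‖ =
            (Metric.closedBall (0 : EE d) 1).indicator (fun _ => (1 : ℝ≥0∞)) z := by
          intro z
          by_cases hn : ‖z‖ ≤ 1
          · rw [indicator_of_mem (show ‖z‖ ∈ Iic (1 : ℝ) from hn), indicator_of_mem]
            simpa using hn
          · rw [indicator_of_notMem (show ‖z‖ ∉ Iic (1 : ℝ) from hn), indicator_of_notMem]
            simpa using hn
        simp_rw [a2]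
        rw [lintegral_indicator measurableSet_closedBall, setLIntegral_const, one_mul]
        unfold kap vl
        rw [ENNReal.ofReal_toReal]
        exact measure_closedBall_lt_top.ne
      · exact (measurable_const.indicator measurableSet_Iic).comp measurable_norm
    simp_rw [a1]
    rw [lintegral_const_mul _ (hBm.ennreal_ofReal.indicator hU), lintegral_indicator hU]
  rw [← hRR, ← hR, hL]
  -- area formula
  set V : Set (EE d) := U ∩ Metric.closedBall 0 1 with hV
  have hVm : MeasurableSet V := hU.inter measurableSet_closedBall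
  have hex : ∀ y : EE d, ∃ L : EE d →L[ℝ] EE d, y ∈ V →
      HasFDerivAt (fun z => ‖z‖ • PP s G e r z) L y ∧ L.det = (BB s G M e r y).det := by
    intro y
    by_cases hy : y ∈ V
    · obtain ⟨L, hL1, hL2⟩ := (h2 d s G M e r hS he he1 hr y (hUp y hy.1).1).2
      exact ⟨L, fun _ => ⟨hL1, hL2⟩⟩
    · exact ⟨0, fun h => absurd h hy⟩
  choose L hLL using hex
  have hinj : InjOn (fun z => ‖z‖ • PP s G e r z) V := by
    intro y hy z hz hyz
    exact h3 d s G M e r hS he he1 hr hrs y z (hUp y hy.1).1 (hUp z hz.1).1 (hUp y hy.1).2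
      (hUp z hz.1).2 hyz
  have harea := lintegral_abs_det_fderiv_eq_addHaar_image (μ := (volume : Measure (EE d))) hVm
    (f := fun z => ‖z‖ • PP s G e r z) (f' := L)
    (fun x hx => (hLL x hx).1.hasFDerivWithinAt) hinj
  have hcong : ∫⁻ y in V, ENNReal.ofReal ((BB s G M e r y).det) =
      ∫⁻ x in V, ENNReal.ofReal |(L x).det| := by
    refine setLIntegral_congr_fun hVm ?_
    intro y hy
    simp only
    rw [(hLL y hy).2, abs_of_pos (hUp y hy.1).2.det_pos]
  rw [hcong, harea]
  refine measure_mono ?_
  rintro _ ⟨y, hy, rfl⟩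
  have hyn : ‖y‖ ≤ 1 := by simpa using hy.2
  exact (h1 d s G M e r hS he he1 hr hrs y (hUp y hy.1).1).2.2 hyn

end SBE
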