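import Pool.Agent.SBE.Stmts

/-!
# Squad SBE: small API, proved here. Every module may import this file.
-/

set_option autoImplicit false

namespace SBE

open MeasureTheory Set Filter Topology ProbabilityTheory
open SBA
open scoped ENNReal Pointwise

variable {d : ℕ}

/-! ## The Gaussian measure -/

instance gs_prob : IsProbabilityMeasure (gs d) := by
  unfold gs
  infer_instance

/-- the density of `gs d` -/
noncomputable def gden (d : ℕ) (y : EE d) : ℝ := (√(2 * Real.pi) ^ d)⁻¹ * Real.exp (-(‖y‖ ^ 2 / 2))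

lemma gden_pos (y : EE d) : 0 < gden d y := by
  unfold gden
  positivity

lemma gden_meas : Measurable (gden d) := by
  unfold gden
  fun_prop

lemma gden_integrable : Integrable (gden d) := by
  have h : Integrable (fun y : EE d => Real.exp (-(1 / 2) * ‖y‖ ^ 2)) := by
    have := GaussianFourier.integrable_cexp_neg_mul_sq_norm_add (V := EE d)
      (b := (1 / 2 : ℝ)) (by norm_num) 0 0
    have h2 := this.norm
    refine h2.congr (Filter.Eventually.of_forall fun y => ?_)
    simp only [zero_mul, add_zero, Complex.norm_exp]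
    norm_cast
  have h2 := h.const_mul ((√(2 * Real.pi) ^ d)⁻¹)
  refine h2.congr (Filter.Eventually.of_forall fun y => ?_)
  simp only [gden]
  congr 2
  ring

lemma gs_const : (((√(2 * Real.pi) ^ d)⁻¹ : ℝ) : ℂ) *
    ((Real.pi : ℂ) / ((1 / 2 : ℝ) : ℂ)) ^ ((Fintype.card (Fin d) : ℂ) / 2) = 1 := by
  have hpi := Real.pi_pos
  have h1 : ((Real.pi : ℂ) / ((1 / 2 : ℝ) : ℂ)) = ((2 * Real.pi : ℝ) : ℂ) := by
    push_cast
    field_simp
  have h2 : ((Fintype.card (Fin d) : ℂ) / 2) = (((d : ℝ) / 2 : ℝ) : ℂ) := by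
    rw [Fintype.card_fin]
    push_cast
    ring
  rw [h1, h2, ← Complex.ofReal_cpow (by positivity), ← Complex.ofReal_mul]
  have h3 : (2 * Real.pi) ^ ((d : ℝ) / 2) = √(2 * Real.pi) ^ d := by
    rw [Real.sqrt_eq_rpow, ← Real.rpow_natCast, ← Real.rpow_mul (by positivity)]
    congr 1
    ring
  rw [h3, inv_mul_cancel₀ (by positivity)]
  norm_num

/-- `gs d` has the density `gden d` -/
theorem gs_density :
    gs d = (volume : Measure (EE d)).withDensity (fun y => ENNReal.ofReal (gden d y)) := by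
  have hint := gden_integrable (d := d)
  have hfin : IsFiniteMeasure ((volume : Measure (EE d)).withDensity
      (fun y => ENNReal.ofReal (gden d y))) := by
    refine isFiniteMeasure_withDensity ?_
    exact (hint.lintegral_lt_top).ne
  apply Measure.ext_of_charFun
  ext t
  unfold gs
  rw [charFun_stdGaussian, charFun_apply]
  rw [integral_withDensity_eq_integral_toReal_smul (by
    exact gden_meas.ennreal_ofReal) (by
    exact Filter.Eventually.of_forall fun y => ENNReal.ofReal_lt_top)]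
  have h1 : ∀ y : EE d, (ENNReal.ofReal (gden d y)).toReal • Complex.exp (inner ℝ y t * Complex.I) =
      (((√(2 * Real.pi) ^ d)⁻¹ : ℝ) : ℂ) *
      Complex.exp (-((1 / 2 : ℝ) : ℂ) * (‖y‖ : ℂ) ^ 2 + Complex.I * (inner ℝ t y : ℝ)) := by
    intro y
    rw [ENNReal.toReal_ofReal (gden_pos y).le, real_inner_comm, Complex.exp_add]
    simp only [gden, Complex.real_smul, Complex.ofReal_mul, Complex.ofReal_exp]
    rw [mul_assoc]
    congr 1
    congr 1
    · congr 1
      push_cast
      ring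
    · congr 1
      ring
  simp_rw [h1]
  rw [integral_const_mul]
  rw [GaussianFourier.integral_cexp_neg_mul_sq_norm_add_of_euclideanSpace (by
    norm_num) Complex.I t]
  rw [← mul_assoc, gs_const, one_mul]
  congr 1
  rw [Complex.I_sq]
  push_cast
  ring

theorem gs_ac : gs d ≪ (volume : Measure (EE d)) := by
  rw [gs_density]
  exact withDensity_absolutelyContinuous _ _

theorem ac_gs : (volume : Measure (EE d)) ≪ gs d := by
  rw [gs_density]
  refine withDensity_absolutelyContinuous' gden_meas.ennreal_ofReal.aemeasurable ?_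
  exact Filter.Eventually.of_forall fun y => (ENNReal.ofReal_pos.2 (gden_pos y)).ne'

theorem vol_ae_ne (hd : 1 ≤ d) : ∀ᵐ y : EE d, y ≠ 0 := by
  have : Nonempty (Fin d) := ⟨⟨0, hd⟩⟩
  have : Nontrivial (EE d) := by
    rw [← Module.finrank_pos_iff (R := ℝ)]
    simp
    omega
  exact Measure.ae_ne volume 0

theorem gs_ae_ne (hd : 1 ≤ d) : ∀ᵐ y ∂(gs d), y ≠ 0 := gs_ac.ae_le (vol_ae_ne hd)

/-- coordinates under `gam` (SBA) and `gs` -/
theorem gam_eq : gam d = (gs d).map (fun y => (√(d : ℝ))⁻¹ • y) := rfl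

/-! ## Cosines -/

theorem cs_comm (u x : EE d) : cs u x = cs x u := by
  unfold cs
  rw [real_inner_comm, mul_comm]

theorem abs_cs_le_one (u x : EE d) : |cs u x| ≤ 1 := abs_real_inner_div_norm_mul_norm_le_one u x

theorem cs_mem (u x : EE d) : cs u x ∈ Icc (-1 : ℝ) 1 := abs_le.1 (abs_cs_le_one u x)

theorem cs_sq_le_one (u x : EE d) : cs u x ^ 2 ≤ 1 := by
  have := abs_cs_le_one u x
  rwa [← sq_le_one_iff_abs_le_one] at this

theorem cs_smul_right (u x : EE d) {t : ℝ} (ht : 0 < t) : cs u (t • x) = cs u x := by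
  unfold cs
  rw [real_inner_smul_right, norm_smul, Real.norm_of_nonneg ht.le]
  by_cases h : ‖u‖ * ‖x‖ = 0
  · rw [show ‖u‖ * (t * ‖x‖) = t * (‖u‖ * ‖x‖) by ring, h]
    simp
  · rw [show ‖u‖ * (t * ‖x‖) = t * (‖u‖ * ‖x‖) by ring, mul_div_mul_left _ _ ht.ne']

theorem cs_smul_left (u x : EE d) {t : ℝ} (ht : 0 < t) : cs (t • u) x = cs u x := by
  rw [cs_comm, cs_smul_right _ _ ht, cs_comm]

theorem cs_meas : Measurable (fun p : EE d × EE d => cs p.1 p.2) := by
  unfold cs
  fun_prop

theorem cs_meas_right (u : EE d) : Measurable (fun x : EE d => cs u x) := by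
  unfold cs
  fun_prop

theorem cs_meas_left (x : EE d) : Measurable (fun u : EE d => cs u x) := by
  unfold cs
  fun_prop

theorem hs_nonneg (A : Matrix (Fin d) (Fin d) ℝ) : 0 ≤ hs A := by
  unfold hs
  positivity

/-! ## Gaussian kernels -/

theorem p0_sq {δ : ℝ} (hδ : 0 < δ) (t : ℝ) : p0 (δ ^ 2) t = gk δ t := by
  unfold p0 gk
  rw [Real.sqrt_mul (by positivity), Real.sqrt_sq hδ.le]

theorem va_zero (ε : ℝ) (y : EE d) : va 0 ε y = (ε * ‖y‖) ^ 2 := by
  unfold va
  ring

theorem FE_eq_Fd (C : Set (EE d)) {ε : ℝ} (hε : 0 < ε) {y : EE d} (hy : y ≠ 0) :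
    FE C 0 ε y = Fd C (ε * ‖y‖) y := by
  unfold FE Fd
  congr 1
  funext x
  rw [va_zero, p0_sq (by positivity)]

theorem FE_pos_eq_Fd (C : Set (EE d)) {δ ε : ℝ} (hδ : 0 < δ) (y : EE d) :
    FE C δ ε y = Fd C (√(va δ ε y)) y := by
  have hv : 0 < va δ ε y := by
    unfold va
    positivity
  unfold FE Fd
  congr 1
  funext x
  rw [← p0_sq (Real.sqrt_pos.2 hv), Real.sq_sqrt hv.le]

theorem p0_zero_right (v : ℝ) : p0 0 v = 0 := by
  unfold p0
  simp

theorem FE_zero (C : Set (EE d)) (ε : ℝ) : FE C 0 ε 0 = 0 := by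
  unfold FE va
  simp [p0]

theorem hh_zero (C : Set (EE d)) : hh C 0 = 0 := by
  unfold hh
  simp

theorem Ho_cs_right {α : Type} (k : ℝ → α) (u : EE d) : Ho (fun y => k (cs u y)) := by
  intro t y ht
  simp only [cs_smul_right _ _ ht]

end SBE
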