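import Pool.Agent.SBE.Api
import Pool.Agent.SBA.CAS

set_option autoImplicit false

namespace SBE

open MeasureTheory Set
open SBA
open scoped ENNReal Pointwise

namespace CAT_

open SBA.CAS_

theorem ballcase {d : ℕ} (hd : 2 ≤ d) (C : Set (EE d)) (hW : IsCompact (Wul C))
    (hhom : ∀ (s : ℝ) (y : EE d), hh C (s • y) = |s| * hh C y) (ρ : ℝ) (hρ : 0 < ρ)
    (hρ2 : ρ ^ 2 = 8 / 5) (hlow : ∀ u : EE d, ‖u‖ = 1 → ρ ≤ hh C u)
    (hk : 2 / √(d : ℝ) ≤ kap d ^ (1 / (d : ℝ))) :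
    √(2 * Real.pi * d) < d * vl (Wul C) ^ (1 / (d : ℝ)) := by
  have hdpos : (0 : ℝ) < d := by
    have : 0 < d := by omega
    exact_mod_cast this
  have hsub : Metric.closedBall (0 : EE d) ρ ⊆ Wul C := by
    intro x hx y
    rw [mem_closedBall_zero_iff] at hx
    by_cases hy : y = 0
    · subst hy
      have := hhom 0 0
      simp at this
      simp [this]
    · have hyn : 0 < ‖y‖ := norm_pos_iff.2 hy
      have e1 : hh C y = ‖y‖ * hh C (‖y‖⁻¹ • y) := by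
        have := hhom ‖y‖ (‖y‖⁻¹ • y)
        rw [smul_smul, mul_inv_cancel₀ hyn.ne', one_smul, abs_of_pos hyn] at this
        exact this
      have e2 : ‖‖y‖⁻¹ • y‖ = 1 := by
        rw [norm_smul, norm_inv, norm_norm, inv_mul_cancel₀ hyn.ne']
      have e3 := hlow _ e2
      calc inner ℝ x y ≤ ‖x‖ * ‖y‖ := real_inner_le_norm x y
        _ ≤ ρ * ‖y‖ := mul_le_mul_of_nonneg_right hx hyn.le
        _ ≤ hh C (‖y‖⁻¹ • y) * ‖y‖ := mul_le_mul_of_nonneg_right e3 hyn.le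
        _ = hh C y := by rw [e1, mul_comm]
  have hvol : ρ ^ d * kap d ≤ vl (Wul C) := by
    have h1 : volume (Metric.closedBall (0 : EE d) ρ) ≤ volume (Wul C) := measure_mono hsub
    have h2 : vl (Metric.closedBall (0 : EE d) ρ) ≤ vl (Wul C) :=
      ENNReal.toReal_mono hW.measure_lt_top.ne h1
    refine le_trans (le_of_eq ?_) h2
    unfold kap vl
    rw [Measure.addHaar_closedBall' volume (0 : EE d) hρ.le, ENNReal.toReal_mul,
      ENNReal.toReal_ofReal (by positivity), finrank_euclideanSpace_fin]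
  have hkn : 0 ≤ kap d := ENNReal.toReal_nonneg
  have hroot : ρ * kap d ^ (1 / (d : ℝ)) ≤ vl (Wul C) ^ (1 / (d : ℝ)) := by
    have h1 : (ρ ^ d * kap d) ^ (1 / (d : ℝ)) ≤ vl (Wul C) ^ (1 / (d : ℝ)) :=
      Real.rpow_le_rpow (by positivity) hvol (by positivity)
    rw [Real.mul_rpow (by positivity) hkn, ← Real.rpow_natCast, ← Real.rpow_mul hρ.le,
      mul_one_div_cancel hdpos.ne', Real.rpow_one] at h1
    exact h1
  have hsd : 0 < √(d : ℝ) := Real.sqrt_pos.2 hdpos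
  have h3 : ρ * (2 / √(d : ℝ)) ≤ vl (Wul C) ^ (1 / (d : ℝ)) :=
    le_trans (mul_le_mul_of_nonneg_left hk hρ.le) hroot
  have h4 : (d : ℝ) * (ρ * (2 / √(d : ℝ))) = 2 * ρ * √(d : ℝ) := by
    have : (d : ℝ) = √(d : ℝ) * √(d : ℝ) := (Real.mul_self_sqrt hdpos.le).symm
    field_simp
    nlinarith
  calc √(2 * Real.pi * d) < 2 * ρ * √(d : ℝ) := by
        rw [Real.sqrt_lt' (by positivity)]
        rw [mul_pow, mul_pow, Real.sq_sqrt hdpos.le, hρ2]
        have := Real.pi_lt_d2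
        nlinarith
    _ = d * (ρ * (2 / √(d : ℝ))) := h4.symm
    _ ≤ d * vl (Wul C) ^ (1 / (d : ℝ)) := mul_le_mul_of_nonneg_left h3 hdpos.le

end CAT_

open CAT_ SBA.CAS_ in
theorem cat_proof (h1 : Stmt_MXJ) (h2 : Stmt_MNQ) (h3 : Stmt_CRJ) (h4 : Stmt_CRQ) (h5 : Stmt_HTR)
    (h6 : Stmt_MRA) (h7 : Stmt_KAP) (h8 : Stmt_WLF) (h9 : Stmt_HPO) : Stmt_CAT := by
  intro d C δ hd hC hv hδ hδ1
  obtain ⟨A1, hA1, hmin⟩ := h2 d C hd hC
  obtain ⟨hB1, hv1, hW1⟩ := h5 d C A1 hd hC hA1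
  have hCm : MeasurableSet C := hC.compact.measurableSet
  obtain ⟨q, hq⟩ := h4 d (A1 '' C) hd hB1 (by
    intro B hB
    rw [cov C hCm A1 hA1, cov C hCm A1 hA1]
    exact hmin (B.comp A1) (det_comp A1 B hA1 hB))
  have hmom : ∀ u : EE d, ‖u‖ = 1 → mom (A1 '' C) u = q := by
    intro u hu
    have := hq u u
    rw [real_inner_self_eq_norm_sq, hu] at this
    unfold mom
    rw [show (1 : ℝ) ^ 2 = 1 by norm_num, mul_one] at this
    rw [← this]
    congr 1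
    funext x
    rw [real_inner_comm, sq]
  by_cases hq40 : q < 40
  · right
    obtain ⟨A, hA, hmax⟩ := h1 d C δ hd hC hδ
    obtain ⟨hB, hvB, hWB⟩ := h5 d C A hd hC hA
    have hid : Jf (A '' C) δ (ContinuousLinearMap.id ℝ (EE d)) = Jf C δ A := by
      rw [jf_image C hCm δ A _ hA]
      rfl
    obtain ⟨α, hα⟩ := h3 d (A '' C) δ hd hB hδ (by
      intro B hBd
      rw [hid, jf_image C hCm δ A B hA]
      exact hmax _ (det_comp A B hA hBd))
    refine ⟨A, α, hA, hB, by rw [hvB, hv], ?_, hα⟩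
    rw [hid]
    refine le_trans ?_ (hmax A1 hA1)
    have hid1 : Jf (A1 '' C) δ (ContinuousLinearMap.id ℝ (EE d)) = Jf C δ A1 := by
      rw [jf_image C hCm δ A1 _ hA1]
      rfl
    rw [← hid1]
    exact jensen hd (A1 '' C) hB1.compact (by rw [hv1, hv]) δ hδ hδ1 q hq40 hmom
  · left
    rw [not_lt] at hq40
    rw [← hW1]
    have hsq : (√(8 / 5 : ℝ)) ^ 2 = 8 / 5 := Real.sq_sqrt (by norm_num)
    refine ballcase hd (A1 '' C) (h8 d _ hd hB1).compact (h9 d _ hd hB1).2.1 (√(8 / 5 : ℝ))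
      (Real.sqrt_pos.2 (by norm_num)) hsq ?_ (h7 d (by omega)).1
    intro u hu
    obtain ⟨g1, -, g3, -, -⟩ := h6 d (A1 '' C) u hd hB1 (by rw [hv1, hv]) hu
    rw [hmom u hu] at g3
    refine Real.sqrt_le_iff.2 ⟨g1.le, ?_⟩
    linarith

end SBE
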