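import Pool.Agent.SBE.Api

/-!
# SBE, module DON: the entropy inequality (Donsker, Varadhan)
-/

set_option autoImplicit false

namespace SBE

open MeasureTheory Set Filter Topology ProbabilityTheory
open SBA
open scoped ENNReal Pointwise

namespace DON_

lemma point (w g Z : ℝ) (hw : 0 ≤ w) (hZ : 0 < Z) :
    w * g - w * Real.log w - w * Real.log Z ≤ Real.exp g / Z - w := by
  rcases eq_or_lt_of_le hw with h | h
  · rw [← h]
    simp only [zero_mul, sub_zero]
    positivity
  · have h1 := Real.add_one_le_exp (g - Real.log w - Real.log Z)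
    have h2 : Real.exp (g - Real.log w - Real.log Z) = Real.exp g / w / Z := by
      rw [Real.exp_sub, Real.exp_sub, Real.exp_log h, Real.exp_log hZ]
    rw [h2] at h1
    have h3 := mul_le_mul_of_nonneg_left h1 hw
    have h4 : w * (Real.exp g / w / Z) = Real.exp g / Z := by
      field_simp
    rw [h4] at h3
    nlinarith

lemma wlog_bdd (w M : ℝ) (h0 : 0 ≤ w) (hM : w ≤ M) : ‖w * Real.log w‖ ≤ M ^ 2 + 1 := by
  rw [Real.norm_eq_abs, abs_le]
  rcases eq_or_lt_of_le h0 with h | h
  · rw [← h]
    simp
    constructor <;> nlinarith [sq_nonneg M]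
  · have h1 := Real.one_sub_inv_le_log_of_pos h
    have h2 := Real.log_le_sub_one_of_pos h
    have h3 := mul_le_mul_of_nonneg_left h1 h0
    have h4 : w * (1 - w⁻¹) = w - 1 := by
      field_simp
    rw [h4] at h3
    constructor
    · nlinarith [sq_nonneg M]
    · have h5 := mul_le_mul_of_nonneg_left h2 h0
      nlinarith [mul_le_mul hM hM h0 (h0.trans hM)]

lemma wlog_int {Ω : Type} [MeasurableSpace Ω] (μ : Measure Ω) [IsProbabilityMeasure μ]
    (w : Ω → ℝ) (M : ℝ) (hw : Measurable w) (h0 : ∀ x, 0 ≤ w x) (hM : ∀ x, w x ≤ M) :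
    Integrable (fun x => w x * Real.log (w x)) μ := by
  refine Integrable.of_bound (by fun_prop) (M ^ 2 + 1) ?_
  exact Filter.Eventually.of_forall fun x => wlog_bdd _ _ (h0 x) (hM x)

end DON_

open DON_ in
theorem don_proof : Stmt_DON := by
  intro Ω _ μ _ w g M hw hg h0 hM hgM h1
  have iw : Integrable w μ := by
    refine Integrable.of_bound (by fun_prop) M ?_
    refine Filter.Eventually.of_forall fun x => ?_
    rw [Real.norm_of_nonneg (h0 x)]
    exact hM x
  have iwg : Integrable (fun x => w x * g x) μ := by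
    refine Integrable.of_bound (by fun_prop) (M * M) ?_
    refine Filter.Eventually.of_forall fun x => ?_
    rw [norm_mul, Real.norm_of_nonneg (h0 x), Real.norm_eq_abs]
    exact mul_le_mul (hM x) (hgM x) (abs_nonneg _) ((h0 x).trans (hM x))
  have iwl := wlog_int μ w M hw h0 hM
  have ieg : Integrable (fun x => Real.exp (g x)) μ := by
    refine Integrable.of_bound (by fun_prop) (Real.exp M) ?_
    refine Filter.Eventually.of_forall fun x => ?_
    rw [Real.norm_of_nonneg (Real.exp_pos _).le]
    exact Real.exp_le_exp.2 ((le_abs_self _).trans (hgM x))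
  have hZ : 0 < ∫ x, Real.exp (g x) ∂μ := integral_exp_pos ieg
  set Z := ∫ x, Real.exp (g x) ∂μ with hZdef
  have h2 : ∫ x, (w x * g x - w x * Real.log (w x) - w x * Real.log Z) ∂μ ≤
      ∫ x, (Real.exp (g x) / Z - w x) ∂μ := by
    apply integral_mono
    · exact (iwg.sub iwl).sub (iw.mul_const _)
    · exact (ieg.div_const _).sub iw
    · intro x
      exact point _ _ _ (h0 x) hZ
  have i1 : Integrable (fun x => w x * g x - w x * Real.log (w x)) μ := iwg.sub iwl
  rw [integral_sub i1 (iw.mul_const _), integral_sub iwg iwl, integral_mul_const,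
    integral_sub (ieg.div_const _) iw, integral_div, h1, ← hZdef, div_self hZ.ne'] at h2
  linarith

end SBE
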