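import Pool.Agent.SBE.Api

/-!
# Squad SBE, module DPH: derivative of the gradient of the smoothed Wulff shape, determinant
-/

set_option autoImplicit false

namespace SBE

open MeasureTheory Set Filter Topology ProbabilityTheory
open SBA
open scoped ENNReal Pointwise

namespace DPH_

variable {d : ℕ}

lemma mv (A : Matrix (Fin d) (Fin d) ℝ) (v : EE d) (i : Fin d) :
    (Matrix.toEuclideanCLM (n := Fin d) (𝕜 := ℝ) A v) i = ∑ j, A i j * v j := by
  rw [Matrix.ofLp_toEuclideanCLM]
  rfl

lemma innv (x v : EE d) : inner ℝ x v = ∑ j, x j * v j := by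
  rw [PiLp.inner_apply]
  refine Finset.sum_congr rfl fun j _ => ?_
  simp [mul_comm]

lemma detCLM (A : Matrix (Fin d) (Fin d) ℝ) :
    (Matrix.toEuclideanCLM (n := Fin d) (𝕜 := ℝ) A).det = A.det := by
  unfold ContinuousLinearMap.det
  rw [Matrix.coe_toEuclideanCLM_eq_toEuclideanLin, Matrix.toEuclideanLin_eq_toLin]
  exact LinearMap.det_toLin _ _

/-- the derivative of the norm -/
lemma dnorm (y : EE d) (hy : y ≠ 0) :
    HasFDerivAt (fun z : EE d => ‖z‖) (‖y‖⁻¹ • innerSL ℝ y) y := by
  have h1 : HasFDerivAt (fun z : EE d => ‖z‖ ^ 2) (2 • innerSL ℝ y) y :=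
    (hasStrictFDerivAt_norm_sq y).hasFDerivAt
  have hn : ‖y‖ ^ 2 ≠ 0 := by
    have := norm_pos_iff.2 hy
    positivity
  have h2 := h1.sqrt hn
  have h3 : (fun z : EE d => √(‖z‖ ^ 2)) = fun z : EE d => ‖z‖ := by
    funext z
    exact Real.sqrt_sq (norm_nonneg z)
  rw [h3] at h2
  have h4 : √(‖y‖ ^ 2) = ‖y‖ := Real.sqrt_sq (norm_nonneg y)
  rw [h4] at h2
  refine h2.congr_fderiv ?_
  ext v
  have := norm_pos_iff.2 hy
  simp only [smul_apply, innerSL_apply_apply, smul_eq_mul, nsmul_eq_mul]
  field_simp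
  simp

/-- the determinant lemma -/
lemma detl (B : Matrix (Fin d) (Fin d) ℝ) (hB : B.IsSymm) (u w : Fin d → ℝ) (p : ℝ) (hp : p ≠ 0)
    (hu : ∀ i, ∑ j, B i j * u j = p * u i) (hw : ∑ i, u i * w i = 0) :
    (B + Matrix.vecMulVec w u).det = B.det := by
  have h1 : B + Matrix.vecMulVec w u =
      (1 + Matrix.replicateCol Unit (p⁻¹ • w) * Matrix.replicateRow Unit u) * B := by
    rw [add_mul, one_mul]
    congr 1
    ext i j
    rw [Matrix.mul_apply]
    simp only [Matrix.vecMulVec_apply, Matrix.mul_apply, Matrix.replicateCol_apply,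
      Matrix.replicateRow_apply, Finset.univ_unique, Finset.sum_singleton, Pi.smul_apply,
      smul_eq_mul]
    have h2 : ∑ x, p⁻¹ * w i * u x * B x j = p⁻¹ * w i * ∑ x, B j x * u x := by
      rw [Finset.mul_sum]
      refine Finset.sum_congr rfl fun x _ => ?_
      have : B x j = B j x := hB.apply j x
      rw [this]
      ring
    rw [h2, hu j]
    field_simp
  rw [h1, Matrix.det_mul, Matrix.det_one_add_replicateCol_mul_replicateRow]
  have h3 : u ⬝ᵥ (p⁻¹ • w) = 0 := by
    rw [dotProduct_smul]
    have : u ⬝ᵥ w = 0 := hw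
    rw [this, smul_zero]
  rw [h3]
  ring

end DPH_

open DPH_ in
theorem dph_proof (hHOM : Stmt_HOM) : Stmt_DPH := by
  intro d s G M e r hS he0 he1 hr y hy
  obtain ⟨hh1, hGy, hMs, hMy⟩ := hHOM d s G M hS y hy
  have hs : 0 < s y := hS.pos y hy
  have hn : 0 < ‖y‖ := norm_pos_iff.2 hy
  have hyy : ∑ j, y j * y j = ‖y‖ ^ 2 := by
    rw [← innv, real_inner_self_eq_norm_sq]
  have hGy' : ∑ j, G y j * y j = - s y := by
    rw [← innv, hGy]
  set p : ℝ := (1 - e) / (‖y‖ * s y) + e * r with hp
  have hp0 : 0 < p := by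
    have : 0 < 1 - e := by linarith
    have h2 : 0 ≤ e * r := mul_nonneg he0 hr
    rw [hp]
    positivity
  -- derivative of PP
  have hder : HasFDerivAt (PP s G e r) (Matrix.toEuclideanCLM (n := Fin d) (𝕜 := ℝ)
      (‖y‖⁻¹ • (BB s G M e r y - p •
        Matrix.of fun i j => y i * y j / ‖y‖ ^ 2))) y := by
    have hg := hS.grad y hy
    have hG := hS.hess y hy
    have hc : HasFDerivAt (fun z => -((1 - e) / s z ^ 2))
        ((2 * (1 - e) / s y ^ 3) • innerSL ℝ (G y)) y := by
      have h1 : HasDerivAt (fun t : ℝ => -((1 - e) / t ^ 2)) (2 * (1 - e) / s y ^ 3) (s y) := by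
        have h2 := (((hasDerivAt_id (s y)).pow 2).inv (by simp; exact hs.ne')).const_mul (-(1 - e))
        refine (h2.congr_deriv ?_).congr_of_eventuallyEq ?_
        · simp
          field_simp
          ring
        · filter_upwards with t
          simp
          ring
      exact h1.comp_hasFDerivAt y hg
    have hk : HasFDerivAt (fun z : EE d => e * r / ‖z‖)
        (-(e * r / ‖y‖ ^ 3) • innerSL ℝ y) y := by
      have h1 : HasDerivAt (fun t : ℝ => e * r / t) (-(e * r / ‖y‖ ^ 2)) ‖y‖ := by
        have h2 := ((hasDerivAt_id ‖y‖).inv (by simpa using hy)).const_mul (e * r)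
        refine (h2.congr_deriv ?_).congr_of_eventuallyEq ?_
        · simp
          field_simp
        · filter_upwards with t
          simp
          ring
      refine (h1.comp_hasFDerivAt y (dnorm y hy)).congr_fderiv ?_
      rw [smul_smul]
      congr 1
      field_simp
    have h3 := (hc.smul hG).add (hk.smul (hasFDerivAt_id y))
    have hfun : PP s G e r =
        (fun z : EE d => -((1 - e) / s z ^ 2)) • G + (fun z : EE d => e * r / ‖z‖) • id := by
      funext z
      rfl
    rw [hfun]
    refine h3.congr_fderiv ?_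
    symm
    ext v i
    rw [mv]
    simp only [add_apply, smul_apply,
      ContinuousLinearMap.smulRight_apply, innerSL_apply_apply, PiLp.add_apply, PiLp.smul_apply,
      smul_eq_mul, ContinuousLinearMap.id_apply, mv, id_eq]
    have e1 : ∀ j, (‖y‖⁻¹ • (BB s G M e r y - p •
        Matrix.of fun i j => y i * y j / ‖y‖ ^ 2)) i j * v j =
        -((1 - e) / s y ^ 2) * (M y i j * v j) + (2 * (1 - e) / s y ^ 3 * G y i) * (G y j * v j)
        + (-(e * r / ‖y‖ ^ 3) * y i) * (y j * v j) +
        (e * r / ‖y‖) * ((if i = j then 1 else 0) * v j) := by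
      intro j
      simp only [BB, AA, Matrix.smul_apply, Matrix.sub_apply, Matrix.add_apply, Matrix.of_apply,
        smul_eq_mul, Matrix.one_apply]
      rw [hp]
      by_cases hij : i = j
      · simp only [hij, if_true]
        field_simp
        ring
      · simp only [hij, if_false]
        field_simp
        ring
    rw [Finset.sum_congr rfl fun j _ => e1 j]
    rw [Finset.sum_add_distrib, Finset.sum_add_distrib, Finset.sum_add_distrib]
    rw [← Finset.mul_sum, ← Finset.mul_sum, ← Finset.mul_sum, ← Finset.mul_sum]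
    rw [← innv, ← innv]
    have e2 : ∑ j, (if i = j then (1 : ℝ) else 0) * v j = v i := by
      simp
    rw [e2]
    ring
  refine ⟨hder, ?_⟩
  -- the symmetric matrix BB and its eigenvector
  have hBs : (BB s G M e r y).IsSymm := by
    unfold Matrix.IsSymm
    ext i j
    simp only [BB, AA, Matrix.transpose_apply, Matrix.smul_apply, Matrix.add_apply,
      Matrix.of_apply, smul_eq_mul, Matrix.one_apply]
    have h1 : M y j i = M y i j := hMs.apply i j
    have h2 : (if j = i then (1 : ℝ) else 0) = if i = j then (1 : ℝ) else 0 := by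
      simp only [eq_comm]
    rw [h1, h2]
    ring
  have hBu : ∀ i, ∑ j, BB s G M e r y i j * (y j / ‖y‖) = p * (y i / ‖y‖) := by
    intro i
    have e1 : ∀ j, BB s G M e r y i j * (y j / ‖y‖) =
        -((1 - e) / s y ^ 2) * (M y i j * y j) +
        (2 * (1 - e) / s y ^ 3 * G y i) * (G y j * y j)
        + ((1 - e) / (‖y‖ ^ 4 * s y) * y i) * (y j * y j) +
        (e * r / ‖y‖) * ((if i = j then 1 else 0) * y j) := by
      intro j
      simp only [BB, AA, Matrix.smul_apply, Matrix.add_apply, Matrix.of_apply,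
        smul_eq_mul, Matrix.one_apply]
      by_cases hij : i = j
      · simp only [hij, if_true]
        field_simp
      · simp only [hij, if_false]
        field_simp
    rw [Finset.sum_congr rfl fun j _ => e1 j]
    rw [Finset.sum_add_distrib, Finset.sum_add_distrib, Finset.sum_add_distrib]
    rw [← Finset.mul_sum, ← Finset.mul_sum, ← Finset.mul_sum, ← Finset.mul_sum]
    rw [hMy i, hGy', hyy]
    have e2 : ∑ j, (if i = j then (1 : ℝ) else 0) * y j = y i := by
      simp
    rw [e2, hp]
    field_simp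
    ring
  have hPu : ∑ i, (y i / ‖y‖) * (PP s G e r y i - p * (y i / ‖y‖)) = 0 := by
    have e1 : ∀ i, (y i / ‖y‖) * (PP s G e r y i - p * (y i / ‖y‖)) =
        (-((1 - e) / s y ^ 2) / ‖y‖) * (G y i * y i) +
        (e * r / ‖y‖ ^ 2 - p / ‖y‖ ^ 2) * (y i * y i) := by
      intro i
      simp only [PP, PiLp.add_apply, PiLp.smul_apply, smul_eq_mul]
      field_simp
      ring
    rw [Finset.sum_congr rfl fun j _ => e1 j]
    rw [Finset.sum_add_distrib, ← Finset.mul_sum, ← Finset.mul_sum, hGy', hyy, hp]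
    field_simp
    ring
  refine ⟨Matrix.toEuclideanCLM (n := Fin d) (𝕜 := ℝ) (BB s G M e r y +
    Matrix.vecMulVec (fun i => PP s G e r y i - p * (y i / ‖y‖)) (fun i => y i / ‖y‖)), ?_, ?_⟩
  · have h3 := (dnorm y hy).smul hder
    refine h3.congr_fderiv ?_
    symm
    ext v i
    rw [mv]
    simp only [add_apply, smul_apply,
      ContinuousLinearMap.smulRight_apply, innerSL_apply_apply, PiLp.add_apply, PiLp.smul_apply,
      smul_eq_mul, mv]
    rw [innv, Finset.mul_sum, Finset.mul_sum, Finset.sum_mul, ← Finset.sum_add_distrib]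
    refine Finset.sum_congr rfl fun j _ => ?_
    simp only [Matrix.add_apply, Matrix.smul_apply, Matrix.sub_apply, Matrix.vecMulVec_apply,
      Matrix.of_apply, smul_eq_mul]
    field_simp
    ring
  · rw [detCLM]
    exact detl _ hBs _ _ p hp0.ne' hBu hPu

end SBE
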