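import Pool.Agent.SBE.Api

set_option autoImplicit false

namespace SBE

open MeasureTheory Set Filter Topology ProbabilityTheory
open SBA
open scoped ENNReal Pointwise

namespace FIN_

variable {d : ℕ}

lemma ball_body (d : ℕ) : Body (Metric.closedBall (0 : EE d) 1) := by
  refine ⟨convex_closedBall 0 1, isCompact_closedBall 0 1, ?_, ?_⟩
  · intro x hx
    simpa [Metric.mem_closedBall, dist_zero_right] using hx
  · refine ⟨0, ?_⟩
    exact interior_mono (Metric.ball_subset_closedBall (x := (0 : EE d)) (ε := 1))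
      (by rw [Metric.isOpen_ball.interior_eq]; simp)

lemma ball_normal (d : ℕ) : IsNormal (Metric.closedBall (0 : EE d) 1) (fun x => x) := by
  intro x hx
  have hne : (1 : ℝ) ≠ 0 := one_ne_zero
  rw [frontier_closedBall (0 : EE d) hne] at hx
  have hx1 : ‖x‖ = 1 := by simpa using hx
  refine ⟨?_, ?_⟩
  · intro h0
    simp only at h0
    rw [h0, norm_zero] at hx1
    exact zero_ne_one hx1
  · intro y hy
    have hy1 : ‖y‖ ≤ 1 := by simpa using hy
    have : inner ℝ x y ≤ ‖x‖ * ‖y‖ := real_inner_le_norm x y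
    simp only [real_inner_self_eq_norm_sq, hx1]
    rw [hx1] at this
    linarith

lemma ball_le (h4 : SBA.Stmt_SPH) (h5 : SBA.Stmt_BSE) (h6 : SBA.Stmt_GAM) (hd : 2 ≤ d) :
    SB (Metric.closedBall (0 : EE d) 1) (fun x => x) ≤
      ENNReal.ofReal (d * kap d / kap (d - 1)) := by
  unfold SB
  rw [frontier_closedBall (0 : EE d) (one_ne_zero : (1 : ℝ) ≠ 0)]
  obtain ⟨g1, g2⟩ := h6 d hd
  have hS : MeasurableSet (Metric.sphere (0 : EE d) 1) := Metric.isClosed_sphere.measurableSet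
  have e1 : ∫⁻ x in Metric.sphere (0 : EE d) 1,
      (μHE[d - 1] (Metric.closedBall (0 : EE d) 1 ∩ hyp x 0))⁻¹ ∂μHE[d - 1] =
      ∫⁻ x in Metric.sphere (0 : EE d) 1, (ENNReal.ofReal (kap (d - 1)))⁻¹ ∂μHE[d - 1] := by
    refine setLIntegral_congr_fun hS ?_
    intro x hx
    have hx1 : ‖x‖ = 1 := by simpa using hx
    simp only
    rw [h5 d x hd hx1]
  rw [e1, setLIntegral_const]
  calc (ENNReal.ofReal (kap (d - 1)))⁻¹ * μHE[d - 1] (Metric.sphere (0 : EE d) 1)
      ≤ (ENNReal.ofReal (kap (d - 1)))⁻¹ * ENNReal.ofReal (d * kap d) := by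
        gcongr
        exact h4 d hd
    _ = ENNReal.ofReal (d * kap d / kap (d - 1)) := by
        rw [ENNReal.ofReal_div_of_pos g2, mul_comm]
        rfl

lemma kap_pos (d : ℕ) : 0 < kap d := by
  unfold kap vl
  refine ENNReal.toReal_pos ?_ ?_
  · exact (Metric.measure_closedBall_pos volume _ one_pos).ne'
  · exact (isCompact_closedBall _ _).measure_lt_top.ne

lemma vl_pos {C : Set (EE d)} (hC : Body C) : 0 < vl C := by
  unfold vl
  refine ENNReal.toReal_pos ?_ hC.compact.measure_lt_top.ne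
  have h1 : 0 < volume (interior C) := isOpen_interior.measure_pos volume hC.nonempty_interior
  exact (lt_of_lt_of_le h1 (measure_mono interior_subset)).ne'

/-- the normalised functional -/
noncomputable def XC (C : Set (EE d)) : ℝ :=
  vl C ^ (((d : ℝ) - 1) / d) * vl (Wul C) ^ (1 / (d : ℝ))

lemma XC_pow (h2 : SBA.Stmt_SCL) (hd : 2 ≤ d) {C : Set (EE d)} (hC : Body C) :
    ∃ s : ℝ, 0 < s ∧ Body (s • C) ∧ vl (s • C) = 1 ∧ vl (Wul (s • C)) = XC C ^ d := by
  have hdpos : (0 : ℝ) < d := by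
    have : 0 < d := by omega
    exact_mod_cast this
  have hv := vl_pos hC
  have hw : 0 ≤ vl (Wul C) := ENNReal.toReal_nonneg
  refine ⟨vl C ^ (-(1 / (d : ℝ))), Real.rpow_pos_of_pos hv _, ?_⟩
  obtain ⟨g1, g2, g3⟩ := h2 d C (vl C ^ (-(1 / (d : ℝ)))) hd hC (Real.rpow_pos_of_pos hv _)
  refine ⟨g1, ?_, ?_⟩
  · rw [g2, ← Real.rpow_natCast, ← Real.rpow_mul hv.le]
    rw [show -(1 / (d : ℝ)) * (d : ℝ) = -1 by field_simp, Real.rpow_neg_one, inv_mul_cancel₀ hv.ne']
  · rw [g3]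
    unfold XC
    rw [mul_pow]
    congr 1
    · congr 1
      rw [← Real.rpow_natCast, ← Real.rpow_mul hv.le, ← Real.rpow_neg hv.le]
      congr 1
      have : ((d - 1 : ℕ) : ℝ) = (d : ℝ) - 1 := by
        rw [Nat.cast_sub (by omega)]
        simp
      rw [this]
      ring
    · rw [← Real.rpow_natCast, ← Real.rpow_mul hw]
      rw [show 1 / (d : ℝ) * (d : ℝ) = 1 by field_simp, Real.rpow_one]

lemma ell_of_ball (hd : 2 ≤ d) {C : Set (EE d)} {s r : ℝ} (hs : 0 < s) (hr : 0 < r)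
    (A : EE d →L[ℝ] EE d) (hA : A.det = 1) (h : A '' (s • C) = Metric.closedBall 0 r) :
    ∃ T : EE d →L[ℝ] EE d, T.det ≠ 0 ∧ C = T '' Metric.closedBall 0 1 := by
  have hdet : LinearMap.det (A : EE d →ₗ[ℝ] EE d) ≠ 0 := by
    have : A.det = LinearMap.det (A : EE d →ₗ[ℝ] EE d) := rfl
    rw [← this, hA]
    exact one_ne_zero
  let e : EE d ≃ₗ[ℝ] EE d := LinearMap.equivOfDetNeZero (A : EE d →ₗ[ℝ] EE d) hdet
  have he : ∀ x, e x = A x := fun x => rfl
  let T : EE d →L[ℝ] EE d := (r / s) • LinearMap.toContinuousLinearMap (e.symm : EE d →ₗ[ℝ] EE d)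
  have hT : ∀ x, T x = (r / s) • e.symm x := fun x => rfl
  refine ⟨T, ?_, ?_⟩
  · have hTd : T.det = LinearMap.det ((r / s) • (e.symm : EE d →ₗ[ℝ] EE d)) := rfl
    rw [hTd, LinearMap.det_smul]
    refine mul_ne_zero (pow_ne_zero _ (div_pos hr hs).ne') ?_
    exact (LinearEquiv.isUnit_det' e.symm).ne_zero
  · ext x
    constructor
    · intro hx
      have h1 : A (s • x) ∈ Metric.closedBall (0 : EE d) r := by
        rw [← h]
        exact ⟨s • x, smul_mem_smul_set hx, rfl⟩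
      refine ⟨r⁻¹ • A (s • x), ?_, ?_⟩
      · rw [mem_closedBall_zero_iff] at h1 ⊢
        rw [norm_smul, norm_inv, Real.norm_of_nonneg hr.le, inv_mul_le_iff₀ hr]
        linarith
      · rw [hT, map_smul, ← he, LinearEquiv.symm_apply_apply, smul_smul, smul_smul]
        rw [show r / s * r⁻¹ * s = 1 by field_simp, one_smul]
    · rintro ⟨z, hz, rfl⟩
      have h1 : r • z ∈ A '' (s • C) := by
        rw [h, mem_closedBall_zero_iff, norm_smul, Real.norm_of_nonneg hr.le]
        rw [mem_closedBall_zero_iff] at hz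
        nlinarith
      obtain ⟨w, ⟨c, hc, hcw⟩, hw⟩ := h1
      have hcw' : s • c = w := hcw
      have h2 : T z = c := by
        rw [hT]
        have h3 : z = r⁻¹ • e w := by
          rw [he, hw, smul_smul, inv_mul_cancel₀ hr.ne', one_smul]
        rw [h3, map_smul, LinearEquiv.symm_apply_apply, ← hcw', smul_smul, smul_smul]
        rw [show r / s * r⁻¹ * s = 1 by field_simp, one_smul]
      rw [h2]
      exact hc

end FIN_

open FIN_ in
theorem fin_proof (h1 : Stmt_PII) (h2 : SBA.Stmt_SCL) (h3 : SBA.Stmt_ISO) (h4 : SBA.Stmt_BRG)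
    (h5 : SBA.Stmt_SPH) (h6 : SBA.Stmt_BSE) (h7 : SBA.Stmt_GAM) : Stmt_FIN := by
  obtain ⟨d₀, hd₀⟩ := h1
  refine ⟨d₀, fun d hd hd2 => ?_⟩
  have hdpos : (0 : ℝ) < d := by
    have : 0 < d := by omega
    exact_mod_cast this
  have hk := kap_pos d
  have hk1 := kap_pos (d - 1)
  have hρ : 0 < kap d / kap (d - 1) := div_pos hk hk1
  have key : ∀ C : Set (EE d), Body C → kap d / kap (d - 1) ≤ XC C ∧
      (XC C ≤ kap d / kap (d - 1) → ∃ T : EE d →L[ℝ] EE d, T.det ≠ 0 ∧
        C = T '' Metric.closedBall 0 1) := by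
    intro C hC
    obtain ⟨s, hs, g1, g2, g3⟩ := XC_pow h2 hd2 hC
    obtain ⟨k1, k2⟩ := hd₀ d (s • C) hd g1 g2
    have hX : 0 ≤ XC C := by
      unfold XC
      have : 0 ≤ vl C := ENNReal.toReal_nonneg
      have : 0 ≤ vl (Wul C) := ENNReal.toReal_nonneg
      positivity
    rw [g3] at k1 k2
    refine ⟨le_of_pow_le_pow_left₀ (by omega) hX k1, fun hle => ?_⟩
    obtain ⟨A, r, hA, hr, hAr⟩ := k2 (pow_le_pow_left₀ hX hle d)
    exact ell_of_ball hd2 hs hr A hA hAr
  have low : ∀ (C : Set (EE d)) (ν : EE d → EE d), Body C → IsNormal C ν →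
      ENNReal.ofReal (d * XC C) ≤ SB C ν := by
    intro C ν hC hν
    refine le_trans (le_of_eq ?_) (le_trans (h3 d C hd2 hC) (h4 d C ν hd2 hC hν))
    congr 1
    unfold XC
    ring
  have val : (d : ℝ) * kap d / kap (d - 1) = d * (kap d / kap (d - 1)) := by ring
  refine ⟨le_antisymm (ball_le h5 h6 h7 hd2) ?_, fun C ν hC hν => ⟨?_, fun hle => ?_⟩⟩
  · refine le_trans ?_ (low _ _ (ball_body d) (ball_normal d))
    rw [val]
    exact ENNReal.ofReal_le_ofReal (mul_le_mul_of_nonneg_left (key _ (ball_body d)).1 hdpos.le)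
  · refine le_trans ?_ (low _ _ hC hν)
    rw [val]
    exact ENNReal.ofReal_le_ofReal (mul_le_mul_of_nonneg_left (key _ hC).1 hdpos.le)
  · have h8 := le_trans (low _ _ hC hν) hle
    rw [val, ENNReal.ofReal_le_ofReal_iff (by positivity)] at h8
    exact (key C hC).2 (le_of_mul_le_mul_left h8 hdpos)

end SBE
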