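import Pool.Agent.SBE.Api

/-!
# SBE, module HEL: the Hellinger inequality
-/

set_option autoImplicit false

namespace SBE

open MeasureTheory Set Filter Topology ProbabilityTheory
open SBA
open scoped ENNReal Pointwise

namespace HEL_

lemma wlog_bdd (w M : ℝ) (h0 : 0 ≤ w) (hM : w ≤ M) : ‖w * Real.log w‖ ≤ M ^ 2 + 1 := by
  rw [Real.norm_eq_abs, abs_le]
  rcases eq_or_lt_of_le h0 with h | h
  · rw [← h]
    simp
    constructor <;> nlinarith [sq_nonneg M]
  · have h1 := Real.one_sub_inv_le_log_of_pos h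
    have h2 := Real.log_le_sub_one_of_pos h
    have h3 := mul_le_mul_of_nonneg_left h1 h0
    have h4 : w * (1 - w⁻¹) = w - 1 := by
      field_simp
    rw [h4] at h3
    constructor
    · nlinarith [sq_nonneg M]
    · have h5 := mul_le_mul_of_nonneg_left h2 h0
      nlinarith [mul_le_mul hM hM h0 (h0.trans hM)]

lemma wlog_int {Ω : Type} [MeasurableSpace Ω] (μ : Measure Ω) [IsProbabilityMeasure μ]
    (w : Ω → ℝ) (M : ℝ) (hw : Measurable w) (h0 : ∀ x, 0 ≤ w x) (hM : ∀ x, w x ≤ M) :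
    Integrable (fun x => w x * Real.log (w x)) μ := by
  refine Integrable.of_bound (by fun_prop) (M ^ 2 + 1) ?_
  exact Filter.Eventually.of_forall fun x => wlog_bdd _ _ (h0 x) (hM x)

lemma point (w : ℝ) (h0 : 0 ≤ w) : (√w - 1) ^ 2 + (w - 1) ≤ w * Real.log w := by
  rcases eq_or_lt_of_le h0 with h | h
  · rw [← h]
    simp
  · have hs : 0 < √w := Real.sqrt_pos.2 h
    have hsq : √w ^ 2 = w := Real.sq_sqrt h0
    have h1 := Real.one_sub_inv_le_log_of_pos hs
    have h2 : Real.log w = 2 * Real.log (√w) := by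
      rw [Real.log_sqrt h0]
      ring
    rw [h2]
    have h3 := mul_le_mul_of_nonneg_left h1 h0
    have h4 : w * (1 - (√w)⁻¹) = w - √w := by
      have : w * (√w)⁻¹ = √w := by
        rw [mul_inv_eq_iff_eq_mul₀ hs.ne']
        nlinarith
      rw [mul_sub, mul_one, this]
    rw [h4] at h3
    nlinarith

/-- Cauchy-Schwarz -/
lemma cs {Ω : Type} [MeasurableSpace Ω] (μ : Measure Ω) (a b : Ω → ℝ)
    (ha : Integrable (fun x => a x ^ 2) μ) (hb : Integrable (fun x => b x ^ 2) μ)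
    (hab : Integrable (fun x => a x * b x) μ) :
    (∫ x, a x * b x ∂μ) ^ 2 ≤ (∫ x, a x ^ 2 ∂μ) * ∫ x, b x ^ 2 ∂μ := by
  have h : ∀ t : ℝ, 0 ≤ (∫ x, a x ^ 2 ∂μ) * (t * t) + (-2 * ∫ x, a x * b x ∂μ) * t +
      ∫ x, b x ^ 2 ∂μ := by
    intro t
    have h1 : 0 ≤ ∫ x, (t * a x - b x) ^ 2 ∂μ := integral_nonneg fun x => sq_nonneg _
    have h2 : ∫ x, (t * a x - b x) ^ 2 ∂μ = ∫ x, ((t * t) * a x ^ 2 + (-2 * t) * (a x * b x) +
        b x ^ 2) ∂μ := by
      congr 1
      funext x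
      ring
    have i1 : Integrable (fun x => (t * t) * a x ^ 2 + (-2 * t) * (a x * b x)) μ :=
      (ha.const_mul _).add (hab.const_mul _)
    rw [h2, integral_add i1 hb,
      integral_add (ha.const_mul _) (hab.const_mul _), integral_const_mul, integral_const_mul] at h1
    linarith
  have h3 := discrim_le_zero h
  unfold discrim at h3
  nlinarith

end HEL_

open HEL_ in
theorem hel_proof : Stmt_HEL := by
  intro Ω _ μ _ w φ M hw hφ h0 hM h1 iφ
  have iw : Integrable w μ := by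
    refine Integrable.of_bound (by fun_prop) M ?_
    refine Filter.Eventually.of_forall fun x => ?_
    rw [Real.norm_of_nonneg (h0 x)]
    exact hM x
  have iwl := wlog_int μ w M hw h0 hM
  have ms : Measurable (fun x => √(w x)) := by fun_prop
  have hsM : ∀ x, √(w x) ≤ √M := fun x => Real.sqrt_le_sqrt (hM x)
  have is : Integrable (fun x => √(w x)) μ := by
    refine Integrable.of_bound (by fun_prop) (√M) ?_
    refine Filter.Eventually.of_forall fun x => ?_
    rw [Real.norm_of_nonneg (Real.sqrt_nonneg _)]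
    exact hsM x
  have ia : Integrable (fun x => (√(w x) - 1) ^ 2) μ := by
    have : (fun x => (√(w x) - 1) ^ 2) = fun x => w x - 2 * √(w x) + 1 := by
      funext x
      have := Real.sq_sqrt (h0 x)
      nlinarith
    rw [this]
    exact (iw.sub (is.const_mul _)).add (integrable_const _)
  have hA : ∫ x, (√(w x) - 1) ^ 2 ∂μ ≤ ∫ x, w x * Real.log (w x) ∂μ := by
    have h2 : ∫ x, ((√(w x) - 1) ^ 2 + (w x - 1)) ∂μ ≤ ∫ x, w x * Real.log (w x) ∂μ := by
      apply integral_mono (ia.add (iw.sub (integrable_const _))) iwl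
      intro x
      exact point _ (h0 x)
    have i1 : Integrable (fun x => w x - 1) μ := iw.sub (integrable_const _)
    rw [integral_add ia i1, integral_sub iw (integrable_const _), h1] at h2
    simpa using h2
  have hA0 : 0 ≤ ∫ x, (√(w x) - 1) ^ 2 ∂μ := integral_nonneg fun x => sq_nonneg _
  refine ⟨hA0.trans hA, ?_⟩
  have iwφ : Integrable (fun x => w x * φ x ^ 2) μ := by
    refine Integrable.mono' (iφ.const_mul M) (by fun_prop) ?_
    refine Filter.Eventually.of_forall fun x => ?_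
    rw [Real.norm_of_nonneg (mul_nonneg (h0 x) (sq_nonneg _))]
    exact mul_le_mul_of_nonneg_right (hM x) (sq_nonneg _)
  have hbb : ∀ x, ((√(w x) + 1) * φ x) ^ 2 ≤ 2 * (w x * φ x ^ 2 + φ x ^ 2) := by
    intro x
    have h2 := Real.sq_sqrt (h0 x)
    have h3 : (√(w x) + 1) ^ 2 ≤ 2 * (w x + 1) := by nlinarith [sq_nonneg (√(w x) - 1)]
    have h4 := mul_le_mul_of_nonneg_right h3 (sq_nonneg (φ x))
    nlinarith
  have ib : Integrable (fun x => ((√(w x) + 1) * φ x) ^ 2) μ := by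
    refine Integrable.mono' ((iwφ.add iφ).const_mul 2) (by fun_prop) ?_
    refine Filter.Eventually.of_forall fun x => ?_
    rw [Real.norm_of_nonneg (sq_nonneg _)]
    exact hbb x
  have iab : Integrable (fun x => (√(w x) - 1) * ((√(w x) + 1) * φ x)) μ := by
    refine Integrable.mono' (ia.add ib) (by fun_prop) ?_
    refine Filter.Eventually.of_forall fun x => ?_
    rw [Real.norm_eq_abs, abs_le]
    simp only [Pi.add_apply]
    constructor
    · nlinarith [sq_nonneg ((√(w x) - 1) + ((√(w x) + 1) * φ x)), sq_nonneg (√(w x) - 1),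
        sq_nonneg ((√(w x) + 1) * φ x)]
    · nlinarith [sq_nonneg ((√(w x) - 1) - ((√(w x) + 1) * φ x)), sq_nonneg (√(w x) - 1),
        sq_nonneg ((√(w x) + 1) * φ x)]
  have h5 := HEL_.cs μ _ _ ia ib iab
  have h6 : ∫ x, (w x - 1) * φ x ∂μ = ∫ x, (√(w x) - 1) * ((√(w x) + 1) * φ x) ∂μ := by
    congr 1
    funext x
    have := Real.sq_sqrt (h0 x)
    have h7 : (w x - 1) = (√(w x) - 1) * (√(w x) + 1) := by nlinarith
    rw [h7]
    ring
  have hB : ∫ x, ((√(w x) + 1) * φ x) ^ 2 ∂μ ≤ 2 * (∫ x, w x * φ x ^ 2 ∂μ + ∫ x, φ x ^ 2 ∂μ) := by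
    have h8 : ∫ x, ((√(w x) + 1) * φ x) ^ 2 ∂μ ≤ ∫ x, 2 * (w x * φ x ^ 2 + φ x ^ 2) ∂μ :=
      integral_mono ib ((iwφ.add iφ).const_mul 2) hbb
    rwa [integral_const_mul, integral_add iwφ iφ] at h8
  rw [h6]
  have hB0 : 0 ≤ ∫ x, ((√(w x) + 1) * φ x) ^ 2 ∂μ := integral_nonneg fun x => sq_nonneg _
  calc _ ≤ _ := h5
    _ ≤ (∫ x, w x * Real.log (w x) ∂μ) * (2 * (∫ x, w x * φ x ^ 2 ∂μ + ∫ x, φ x ^ 2 ∂μ)) :=
        mul_le_mul hA hB hB0 (hA0.trans hA)
    _ = _ := by ring

end SBE
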