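import Pool.Agent.SBE.Api

/-!
# SBE, module MOM: moments of the cosines
-/

set_option autoImplicit false

namespace SBE

open MeasureTheory Set Filter Topology ProbabilityTheory
open SBA
open scoped ENNReal Pointwise

namespace MOM_

variable {d : ℕ}

/-- the function -/
noncomputable def ps (j k : ℕ) (u y : EE d) : ℝ := cs u y ^ (2 * j) * ((1 - cs u y ^ 2) ^ k)⁻¹

lemma ps_meas (j k : ℕ) (u : EE d) : Measurable (ps j k u) := by
  unfold ps
  have := cs_meas_right u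
  fun_prop

lemma ps_Ho (j k : ℕ) (u : EE d) : Ho (ps j k u) :=
  Ho_cs_right (fun t => t ^ (2 * j) * ((1 - t ^ 2) ^ k)⁻¹) u

lemma ps_nonneg (j k : ℕ) (u y : EE d) : 0 ≤ ps j k u y := by
  unfold ps
  have h1 := cs_sq_le_one u y
  have h2 : 0 ≤ 1 - cs u y ^ 2 := by linarith
  rw [pow_mul]
  positivity

/-- Young -/
lemma young (a b l : ℝ) (hl : 0 < l) : a * b ≤ l * a ^ 2 + l⁻¹ * b ^ 2 := by
  have h1 : 0 ≤ (l * a - b) ^ 2 / l := by positivity
  have h2 : (l * a - b) ^ 2 / l = l * a ^ 2 - 2 * (a * b) + l⁻¹ * b ^ 2 := by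
    field_simp
    ring
  have h3 : 0 ≤ l * a ^ 2 + l⁻¹ * b ^ 2 := by positivity
  linarith

/-- the pointwise bound -/
lemma point (j k : ℕ) (u x : EE d) (hu : ‖u‖ = 1) (hx : |cs u x| < 1) (hx0 : x ≠ 0) (l : ℝ)
    (hl : 0 < l) :
    ps j k u x * (‖x‖ ^ 1)⁻¹ ≤ (4 / 3) ^ k *
      (l * inner ℝ u x ^ (2 * (2 * j)) + l⁻¹ * (‖x‖ ^ (4 * j + 2))⁻¹) +
      4 ^ k * 3 ^ j * (l * inner ℝ u x ^ (2 * (2 * (k + j))) +
        l⁻¹ * (‖x - inner ℝ u x • u‖ ^ (4 * (k + j) + 2))⁻¹) := by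
  set a := (inner ℝ u x : ℝ) with ha
  set r := ‖x‖ with hr
  set p := ‖x - a • u‖ with hp
  have hr0 : 0 < r := norm_pos_iff.2 hx0
  have hcs : cs u x = a / r := by
    unfold cs
    rw [hu, one_mul]
  have hpp : p ^ 2 = r ^ 2 - a ^ 2 := by
    rw [hp, norm_sub_sq_real, real_inner_smul_right, norm_smul, hu, real_inner_comm, ← ha, mul_one,
      Real.norm_eq_abs, sq_abs]
    ring
  have hlt : (a / r) ^ 2 < 1 := by
    rw [← hcs]
    exact (sq_lt_one_iff_abs_lt_one _).2 hx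
  have hlt2 : a ^ 2 < r ^ 2 := by
    rw [div_pow, div_lt_one (by positivity)] at hlt
    exact hlt
  have hp0 : 0 < p := by
    have h1 : 0 < p ^ 2 := by rw [hpp]; linarith
    have h2 : 0 ≤ p := norm_nonneg _
    rcases eq_or_lt_of_le h2 with h | h
    · rw [← h] at h1
      norm_num at h1
    · exact h
  have hpr : p ≤ r := by
    apply le_of_sq_le_sq _ hr0.le
    nlinarith [sq_nonneg a]
  have h1t : 1 - cs u x ^ 2 = p ^ 2 / r ^ 2 := by
    rw [hcs, hpp]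
    field_simp
  have hps : ps j k u x = (a / r) ^ (2 * j) * ((p ^ 2 / r ^ 2) ^ k)⁻¹ := by
    unfold ps
    rw [h1t, hcs]
  have hA : 0 ≤ (4 / 3 : ℝ) ^ k * (l * a ^ (2 * (2 * j)) + l⁻¹ * (r ^ (4 * j + 2))⁻¹) := by
    rw [pow_mul a 2]
    positivity
  have hB : 0 ≤ (4 : ℝ) ^ k * 3 ^ j * (l * a ^ (2 * (2 * (k + j))) +
        l⁻¹ * (p ^ (4 * (k + j) + 2))⁻¹) := by
    rw [pow_mul a 2]
    positivity
  rcases le_or_gt (4 * a ^ 2) (r ^ 2) with hcase | hcase
  · -- the main case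
    have h1 : ((p ^ 2 / r ^ 2) ^ k)⁻¹ ≤ (4 / 3) ^ k := by
      rw [← inv_pow]
      apply pow_le_pow_left₀ (by positivity)
      rw [inv_div, div_le_iff₀ (by positivity), hpp]
      linarith
    have h2 : ps j k u x * (r ^ 1)⁻¹ ≤ (4 / 3) ^ k * (a ^ (2 * j) * (r ^ (2 * j + 1))⁻¹) := by
      rw [hps]
      have h3 : (a / r) ^ (2 * j) * (r ^ 1)⁻¹ = a ^ (2 * j) * (r ^ (2 * j + 1))⁻¹ := by
        rw [div_pow, pow_succ r (2 * j), mul_inv, pow_one]
        field_simp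
      have h4 : 0 ≤ (a / r) ^ (2 * j) * (r ^ 1)⁻¹ := by
        rw [pow_mul]
        positivity
      calc _ = ((p ^ 2 / r ^ 2) ^ k)⁻¹ * ((a / r) ^ (2 * j) * (r ^ 1)⁻¹) := by ring
        _ ≤ (4 / 3) ^ k * ((a / r) ^ (2 * j) * (r ^ 1)⁻¹) := mul_le_mul_of_nonneg_right h1 h4
        _ = _ := by rw [h3]
    have h5 := young (a ^ (2 * j)) ((r ^ (2 * j + 1))⁻¹) l hl
    have h6 : (a ^ (2 * j)) ^ 2 = a ^ (2 * (2 * j)) := by
      rw [← pow_mul]
      congr 1
      ring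
    have h7 : ((r ^ (2 * j + 1))⁻¹) ^ 2 = (r ^ (4 * j + 2))⁻¹ := by
      rw [inv_pow, ← pow_mul]
      congr 2
      ring
    rw [h6, h7] at h5
    have h8 := mul_le_mul_of_nonneg_left h5 (show (0 : ℝ) ≤ (4 / 3) ^ k by positivity)
    linarith
  · -- the other case
    have hq : (1 : ℝ) ≤ 3 * a ^ 2 / p ^ 2 := by
      rw [le_div_iff₀ (by positivity), hpp]
      linarith
    have h1 : (a / r) ^ (2 * j) ≤ 1 := by
      rw [pow_mul]
      exact pow_le_one₀ (by positivity) hlt.le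
    have h2 : ((p ^ 2 / r ^ 2) ^ k)⁻¹ ≤ (4 * a ^ 2 / p ^ 2) ^ k := by
      rw [← inv_pow]
      apply pow_le_pow_left₀ (by positivity)
      rw [inv_div]
      apply div_le_div_of_nonneg_right hcase.le (by positivity)
    have h3 : (1 : ℝ) ≤ (3 * a ^ 2 / p ^ 2) ^ j := one_le_pow₀ hq
    have h4 : (r ^ 1)⁻¹ ≤ p⁻¹ := by
      rw [pow_one]
      exact inv_anti₀ hp0 hpr
    have h5 : ps j k u x * (r ^ 1)⁻¹ ≤
        4 ^ k * 3 ^ j * (a ^ (2 * (k + j)) * (p ^ (2 * (k + j) + 1))⁻¹) := by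
      rw [hps]
      calc (a / r) ^ (2 * j) * ((p ^ 2 / r ^ 2) ^ k)⁻¹ * (r ^ 1)⁻¹
          ≤ 1 * (4 * a ^ 2 / p ^ 2) ^ k * p⁻¹ := by
            apply mul_le_mul _ h4 (by positivity) (by positivity)
            exact mul_le_mul h1 h2 (by positivity) (by norm_num)
        _ ≤ (3 * a ^ 2 / p ^ 2) ^ j * (4 * a ^ 2 / p ^ 2) ^ k * p⁻¹ := by
            apply mul_le_mul_of_nonneg_right _ (by positivity)
            exact mul_le_mul_of_nonneg_right h3 (by positivity)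
        _ = _ := by
            rw [div_pow, div_pow, mul_pow, mul_pow, ← pow_mul a 2 j, ← pow_mul a 2 k,
              ← pow_mul p 2 j, ← pow_mul p 2 k, pow_succ p (2 * (k + j)), mul_add 2 k j, pow_add,
              pow_add]
            field_simp
    have h6 := young (a ^ (2 * (k + j))) ((p ^ (2 * (k + j) + 1))⁻¹) l hl
    have h7 : (a ^ (2 * (k + j))) ^ 2 = a ^ (2 * (2 * (k + j))) := by
      rw [← pow_mul]
      congr 1
      ring
    have h8 : ((p ^ (2 * (k + j) + 1))⁻¹) ^ 2 = (p ^ (4 * (k + j) + 2))⁻¹ := by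
      rw [inv_pow, ← pow_mul]
      congr 2
      ring
    rw [h7, h8] at h6
    have h9 := mul_le_mul_of_nonneg_left h6 (show (0 : ℝ) ≤ 4 ^ k * 3 ^ j by positivity)
    linarith

lemma hh_nonneg (C : Set (EE d)) (y : EE d) : 0 ≤ hh C y := by
  unfold hh sec mar
  positivity

/-- negative moments, from BTH and KAP -/
lemma negmom (hBTH : SBA.Stmt_BTH) (hKAP : SBA.Stmt_KAP) (m : ℕ) (C : Set (EE d))
    (hd : 2 * m + 2 ≤ d) (hC : Body C) (hv : vl C = 1) :
    ∫ x in C, (‖x‖ ^ m)⁻¹ ≤ 2 * √(2 * Real.pi * Real.exp 1) ^ m / √(d : ℝ) ^ m := by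
  have h1 := (hBTH d m C (by omega) hC hv).2
  have h2 := (hKAP d (by omega)).2
  have hd0 : (0 : ℝ) < d := by
    have : 0 < d := by omega
    exact_mod_cast this
  have hdm : (2 * m + 2 : ℝ) ≤ d := by exact_mod_cast hd
  have hm0 : (0 : ℝ) ≤ m := by positivity
  have h3 : (d : ℝ) / ((d : ℝ) - m) ≤ 2 := by
    rw [div_le_iff₀ (by linarith)]
    linarith
  have hk0 : 0 ≤ kap d := by
    unfold kap vl
    positivity
  have h4 : kap d ^ ((m : ℝ) / d) ≤ √(2 * Real.pi * Real.exp 1) ^ m / √(d : ℝ) ^ m := by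
    have h5 : kap d ^ ((m : ℝ) / d) = (kap d ^ (1 / (d : ℝ))) ^ m := by
      rw [← Real.rpow_natCast, ← Real.rpow_mul hk0]
      congr 1
      ring
    rw [h5, ← div_pow]
    apply pow_le_pow_left₀ (by positivity)
    rw [← Real.sqrt_div (by positivity)]
    exact h2
  calc _ ≤ _ := h1
    _ ≤ 2 * (√(2 * Real.pi * Real.exp 1) ^ m / √(d : ℝ) ^ m) :=
        mul_le_mul h3 h4 (by positivity) (by norm_num)
    _ = _ := by ring

end MOM_

open MOM_ in
theorem mom_proof (hMRP : Stmt_MRP) (hPRJ : Stmt_PRJ) (hRAC : Stmt_RAC) (hROT : Stmt_ROT)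
    (hBTH : SBA.Stmt_BTH) (hKAP : SBA.Stmt_KAP) : Stmt_MOM := by
  intro j k c₁ hc₁
  obtain ⟨K1, hK1, h1⟩ := hMRP (2 * j)
  obtain ⟨K2, hK2, h2⟩ := hMRP (2 * (k + j))
  obtain ⟨K3, d3, hK3, h3⟩ := hPRJ (4 * (k + j) + 2) c₁ hc₁
  set E := √(2 * Real.pi * Real.exp 1) with hE
  set A1 := K1 * c₁ ^ (2 * (2 * j)) with hA1
  set B1 := 2 * E ^ (4 * j + 2) with hB1
  set A2 := K2 * c₁ ^ (2 * (2 * (k + j))) with hA2
  set T := (4 / 3 : ℝ) ^ k * (A1 + B1) + 4 ^ k * 3 ^ j * (A2 + K3) with hT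
  have hE0 : 0 < E := Real.sqrt_pos.2 (by positivity)
  have hT0 : 0 < T := by positivity
  refine ⟨7 * T, max d3 (2 * (4 * j + 2) + 2), by positivity, ?_⟩
  intro d C hd hC hv hub hN u hu
  have hd3 : d3 ≤ d := (le_max_left _ _).trans hd
  have hd4 : 2 * (4 * j + 2) + 2 ≤ d := (le_max_right _ _).trans hd
  have hd2 : 2 ≤ d := by omega
  have hd0 : (0 : ℝ) < d := by
    have : 0 < d := by omega
    exact_mod_cast this
  have hd1 : (1 : ℝ) ≤ d := by
    have : 1 ≤ d := by omega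
    exact_mod_cast this
  have hu0 : u ≠ 0 := by
    intro h
    rw [h, norm_zero] at hu
    norm_num at hu
  set S := √(d : ℝ) with hS
  have hS0 : 0 < S := Real.sqrt_pos.2 hd0
  have hS1 : 1 ≤ S := by
    rw [hS]
    exact Real.one_le_sqrt.2 hd1
  set l := (S ^ (2 * j + 1))⁻¹ with hl
  have hl0 : 0 < l := by positivity
  -- integrals
  have hfin : volume C < ⊤ := hC.compact.measure_lt_top
  have ia : ∀ m : ℕ, Integrable (fun x : EE d => (inner ℝ u x : ℝ) ^ m) (volume.restrict C) := by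
    intro m
    have hc : Continuous (fun x : EE d => (inner ℝ u x : ℝ) ^ m) := by fun_prop
    exact hc.continuousOn.integrableOn_compact hC.compact
  have ib := (hBTH d (4 * j + 2) C (by omega) hC hv).1
  have hhu : 0 ≤ hh C u := hh_nonneg C u
  have j1 : ∫ x in C, (inner ℝ u x : ℝ) ^ (2 * (2 * j)) ≤ A1 :=
    (h1 d C u hd2 hC hv hu).trans
      (mul_le_mul_of_nonneg_left (pow_le_pow_left₀ hhu (hub u hu) _) hK1.le)
  have j2 : ∫ x in C, (inner ℝ u x : ℝ) ^ (2 * (2 * (k + j))) ≤ A2 :=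
    (h2 d C u hd2 hC hv hu).trans
      (mul_le_mul_of_nonneg_left (pow_le_pow_left₀ hhu (hub u hu) _) hK2.le)
  have j3 : ∫ x in C, (‖x‖ ^ (4 * j + 2))⁻¹ ≤ B1 / S ^ (4 * j + 2) :=
    negmom hBTH hKAP (4 * j + 2) C hd4 hC hv
  have j4 := h3 d C u hd3 hC hv hu (hub u hu)
  have mP : Measurable fun x : EE d => (‖x - (inner ℝ u x : ℝ) • u‖ ^ (4 * (k + j) + 2))⁻¹ := by
    fun_prop
  have ip : Integrable (fun x : EE d => (‖x - (inner ℝ u x : ℝ) • u‖ ^ (4 * (k + j) + 2))⁻¹)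
      (volume.restrict C) := by
    refine ⟨mP.aestronglyMeasurable, ?_⟩
    rw [hasFiniteIntegral_iff_ofReal (Filter.Eventually.of_forall fun x => by positivity)]
    exact j4.trans_lt ENNReal.ofReal_lt_top
  have j5 : ∫ x in C, (‖x - (inner ℝ u x : ℝ) • u‖ ^ (4 * (k + j) + 2))⁻¹ ≤
      K3 / S ^ (4 * (k + j) + 2) := by
    rw [integral_eq_lintegral_of_nonneg_ae (Filter.Eventually.of_forall fun x => by positivity)
      mP.aestronglyMeasurable]
    exact ENNReal.toReal_le_of_le_ofReal (by positivity) j4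
  have j6 : K3 / S ^ (4 * (k + j) + 2) ≤ K3 / S ^ (4 * j + 2) := by
    apply div_le_div_of_nonneg_left hK3.le (by positivity)
    exact pow_le_pow_right₀ hS1 (by omega)
  -- the bound for the integral over the body
  set G : EE d → ℝ := fun x => (4 / 3) ^ k *
      (l * inner ℝ u x ^ (2 * (2 * j)) + l⁻¹ * (‖x‖ ^ (4 * j + 2))⁻¹) +
      4 ^ k * 3 ^ j * (l * inner ℝ u x ^ (2 * (2 * (k + j))) +
        l⁻¹ * (‖x - inner ℝ u x • u‖ ^ (4 * (k + j) + 2))⁻¹) with hG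
  have iG1 : Integrable (fun x : EE d => l * (inner ℝ u x : ℝ) ^ (2 * (2 * j)) +
      l⁻¹ * (‖x‖ ^ (4 * j + 2))⁻¹) (volume.restrict C) :=
    ((ia _).const_mul _).add (ib.const_mul _)
  have iG2 : Integrable (fun x : EE d => l * (inner ℝ u x : ℝ) ^ (2 * (2 * (k + j))) +
        l⁻¹ * (‖x - (inner ℝ u x : ℝ) • u‖ ^ (4 * (k + j) + 2))⁻¹) (volume.restrict C) :=
    ((ia _).const_mul _).add (ip.const_mul _)
  have iG : Integrable G (volume.restrict C) := (iG1.const_mul _).add (iG2.const_mul _)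
  have hGint : ∫ x in C, G x ≤ T * l := by
    rw [hG, integral_add (iG1.const_mul _) (iG2.const_mul _), integral_const_mul,
      integral_const_mul, integral_add ((ia _).const_mul _) (ib.const_mul _),
      integral_add ((ia _).const_mul _) (ip.const_mul _), integral_const_mul, integral_const_mul,
      integral_const_mul, integral_const_mul]
    have e1 : l⁻¹ * (1 / S ^ (4 * j + 2)) = l := by
      have e3 : S ^ (4 * j + 2) = S ^ (2 * j + 1) * S ^ (2 * j + 1) := by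
        rw [← pow_add]
        congr 1
        ring
      have e4 : 0 < S ^ (2 * j + 1) := by positivity
      rw [hl, inv_inv, e3]
      generalize S ^ (2 * j + 1) = q at e4
      field_simp
    have e2 : ∀ B : ℝ, l⁻¹ * (B / S ^ (4 * j + 2)) = B * l := by
      intro B
      rw [show l⁻¹ * (B / S ^ (4 * j + 2)) = B * (l⁻¹ * (1 / S ^ (4 * j + 2))) by ring, e1]
    have q1 : l * (∫ x in C, (inner ℝ u x : ℝ) ^ (2 * (2 * j))) +
        l⁻¹ * ∫ x in C, (‖x‖ ^ (4 * j + 2))⁻¹ ≤ (A1 + B1) * l := by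
      have q3 := mul_le_mul_of_nonneg_left j1 hl0.le
      have q4 := mul_le_mul_of_nonneg_left j3 (inv_pos.2 hl0).le
      rw [e2] at q4
      linarith
    have q2 : l * (∫ x in C, (inner ℝ u x : ℝ) ^ (2 * (2 * (k + j)))) +
        l⁻¹ * ∫ x in C, (‖x - (inner ℝ u x : ℝ) • u‖ ^ (4 * (k + j) + 2))⁻¹ ≤ (A2 + K3) * l := by
      have q3 := mul_le_mul_of_nonneg_left j2 hl0.le
      have q4 := mul_le_mul_of_nonneg_left (j5.trans j6) (inv_pos.2 hl0).le
      rw [e2] at q4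
      linarith
    have q5 := mul_le_mul_of_nonneg_left q1 (show (0 : ℝ) ≤ (4 / 3) ^ k by positivity)
    have q6 := mul_le_mul_of_nonneg_left q2 (show (0 : ℝ) ≤ 4 ^ k * 3 ^ j by positivity)
    rw [hT]
    linarith
  have hae : ∀ᵐ x ∂(volume.restrict C), ps j k u x * (‖x‖ ^ 1)⁻¹ ≤ G x := by
    apply ae_restrict_of_ae
    filter_upwards [((hROT d hd2).2.2.1 u hu0).1, vol_ae_ne (d := d) (by omega)] with x hx hx0
    exact point j k u x hu hx hx0 l hl0
  have m1 : Measurable (fun x : EE d => ps j k u x * (‖x‖ ^ 1)⁻¹) := by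
    have := ps_meas j k u
    fun_prop
  have i1 : Integrable (fun x : EE d => ps j k u x * (‖x‖ ^ 1)⁻¹) (volume.restrict C) := by
    refine Integrable.mono' iG m1.aestronglyMeasurable ?_
    filter_upwards [hae] with x hx
    rw [Real.norm_of_nonneg (mul_nonneg (ps_nonneg _ _ _ _) (by positivity))]
    exact hx
  have i2 : ∫ x in C, ps j k u x * (‖x‖ ^ 1)⁻¹ ≤ T * l :=
    (integral_mono_ae i1 iG hae).trans hGint
  obtain ⟨r1, r2⟩ := (hRAC d 1 C (by omega) hC).2 (ps j k u) (ps_meas j k u) (ps_Ho j k u)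
  have r3 := r1.1 i1
  rw [r2] at i2
  have hNN : 0 < NN C := by
    by_contra h
    push Not at h
    have := mul_nonpos_of_nonneg_of_nonpos hS0.le h
    linarith
  have hwt : ∀ y : EE d, wt C y * (cs u y ^ (2 * j) * ((1 - cs u y ^ 2) ^ k)⁻¹) =
      (NN C)⁻¹ * (ps j k u y * ((d : ℝ) * kap d / ((d : ℝ) - (1 : ℕ)) *
        (‖y‖ / gauge C y) ^ (d - 1))) := by
    intro y
    unfold wt ps
    rw [Nat.cast_one]
    have : (d : ℝ) * kap d / (((d : ℝ) - 1) * NN C) = (NN C)⁻¹ * ((d : ℝ) * kap d / ((d : ℝ) - 1)) := by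
      rw [mul_comm ((d : ℝ) - 1), div_mul_eq_div_div_swap]
      ring
    rw [this]
    ring
  simp_rw [hwt]
  refine ⟨r3.const_mul _, ?_⟩
  rw [integral_const_mul]
  have hNi : (NN C)⁻¹ ≤ 7 * S := by
    rw [inv_le_comm₀ hNN (by positivity), mul_inv, inv_mul_le_iff₀ (by norm_num)]
    rw [inv_le_iff_one_le_mul₀ hS0]
    linarith
  have hTl : 0 ≤ T * l := by positivity
  calc _ ≤ (NN C)⁻¹ * (T * l) := mul_le_mul_of_nonneg_left i2 (inv_pos.2 hNN).le
    _ ≤ 7 * S * (T * l) := mul_le_mul_of_nonneg_right hNi hTl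
    _ = 7 * T / (d : ℝ) ^ j := by
        have hSd : S ^ (2 * j) = (d : ℝ) ^ j := by
          rw [pow_mul, hS, Real.sq_sqrt hd0.le]
        rw [hl, pow_succ, hSd]
        field_simp

end SBE
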