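import Pool.Agent.SBE.Api

/-!
# SBE, module ROT: rotation invariance
-/

set_option autoImplicit false

namespace SBE

open MeasureTheory Set Filter Topology ProbabilityTheory
open SBA
open scoped ENNReal Pointwise

namespace ROT_

variable {d : ℕ}

lemma cs_isom (R : EE d ≃ₗᵢ[ℝ] EE d) (u y : EE d) : cs (R u) (R y) = cs u y := by
  unfold cs
  rw [R.inner_map_map, R.norm_map, R.norm_map]

lemma gs_isom (R : EE d ≃ₗᵢ[ℝ] EE d) : (gs d).map R = gs d := by
  unfold gs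
  exact stdGaussian_map R

/-- a linear isometry which maps a unit vector to a unit vector -/
lemma exists_isom (v w : EE d) (hv : ‖v‖ = 1) (hw : ‖w‖ = 1) :
    ∃ R : EE d ≃ₗᵢ[ℝ] EE d, R v = w := by
  refine ⟨(ℝ ∙ (v - w))ᗮ.reflection, ?_⟩
  exact Submodule.reflection_sub (by rw [hv, hw])

lemma exists_rot (u v : EE d) (hu : u ≠ 0) (hv : v ≠ 0) :
    ∃ R : EE d ≃ₗᵢ[ℝ] EE d, ∀ y, cs v (R y) = cs u y := by
  obtain ⟨R, hR⟩ := exists_isom (‖u‖⁻¹ • u) (‖v‖⁻¹ • v) (norm_smul_inv_norm hu)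
    (norm_smul_inv_norm hv)
  refine ⟨R, fun y => ?_⟩
  have h1 : cs v (R y) = cs (‖v‖⁻¹ • v) (R y) :=
    (cs_smul_left _ _ (inv_pos.2 (norm_pos_iff.2 hv))).symm
  rw [h1, ← hR, cs_isom, cs_smul_left _ _ (inv_pos.2 (norm_pos_iff.2 hu))]

lemma ae_lt (hd : 2 ≤ d) (u : EE d) (hu : u ≠ 0) : ∀ᵐ y : EE d, |cs u y| < 1 := by
  have h1 : (volume : Measure (EE d)) (ℝ ∙ u : Submodule ℝ (EE d)) = 0 := by
    apply Measure.addHaar_submodule
    intro h
    have h2 : Module.finrank ℝ (ℝ ∙ u : Submodule ℝ (EE d)) = 1 := finrank_span_singleton hu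
    rw [h, finrank_top] at h2
    simp at h2
    omega
  have h2 : ∀ᵐ y : EE d, y ∉ (ℝ ∙ u : Submodule ℝ (EE d)) := by
    rw [ae_iff]
    simpa using h1
  filter_upwards [h2] with y hy
  refine lt_of_le_of_ne (abs_cs_le_one u y) ?_
  intro h
  unfold cs at h
  rw [abs_real_inner_div_norm_mul_norm_eq_one_iff] at h
  obtain ⟨_, r, _, hr⟩ := h
  apply hy
  rw [hr]
  exact Submodule.smul_mem _ _ (Submodule.mem_span_singleton_self u)

end ROT_

open ROT_ in
theorem rot_proof : Stmt_ROT := by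
  intro d hd
  refine ⟨?_, ?_, ?_, abs_cs_le_one⟩
  · intro k u v hu hv
    obtain ⟨R, hR⟩ := exists_rot u v hu hv
    have h1 : ∫ y, k (cs v y) ∂(gs d) = ∫ y, k (cs v y) ∂((gs d).map R) := by rw [gs_isom]
    rw [h1]
    have h2 := (R.toHomeomorph.toMeasurableEquiv.measurableEmbedding).integral_map
      (μ := gs d) (fun y => k (cs v y))
    have h3 : ((R.toHomeomorph.toMeasurableEquiv : EE d → EE d)) = R := rfl
    rw [h3] at h2
    rw [h2]
    congr 1
    funext y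
    rw [hR]
  · intro k u v hu hv
    obtain ⟨R, hR⟩ := exists_rot u v hu hv
    have h1 : ∫⁻ y, k (cs v y) ∂(gs d) = ∫⁻ y, k (cs v y) ∂((gs d).map R) := by rw [gs_isom]
    rw [h1]
    have h2 := (R.toHomeomorph.toMeasurableEquiv.measurableEmbedding).lintegral_map
      (μ := gs d) (fun y => k (cs v y))
    have h3 : ((R.toHomeomorph.toMeasurableEquiv : EE d → EE d)) = R := rfl
    rw [h3] at h2
    rw [h2]
    congr 1
    funext y
    rw [hR]
  · intro u hu
    exact ⟨ae_lt hd u hu, gs_ac.ae_le (ae_lt hd u hu)⟩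

end SBE
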